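import Mathlib

/-!
# Smooth dependence of flows on the initial point, I: differentiability

For a `C¹` field `W` on a finite dimensional space and a solution map `Φ` on the time interval
`[0,1]` we show that every `Φ t` is differentiable, with derivative solving the linearised equation.
-/

set_option autoImplicit false
set_option linter.unusedSectionVars false

open Set Metric

namespace Pool.Agent.Helper87.SY

/-- `Φ` is a solution map of `x' = W x` on the time interval `[0,1]`, defined for every starting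
point. -/
def IsFlow01 {E : Type} [NormedAddCommGroup E] [NormedSpace ℝ E] (W : E → E) (Φ : ℝ → E → E) :
    Prop :=
  (∀ x, Φ 0 x = x) ∧
    ∀ x, ∀ t ∈ Icc (0 : ℝ) 1, HasDerivWithinAt (fun s => Φ s x) (W (Φ t x)) (Icc 0 1) t

section Linear

variable {V : Type} [NormedAddCommGroup V] [NormedSpace ℝ V]

theorem lin_local [CompleteSpace V] {A : ℝ → V →L[ℝ] V} {a b C : ℝ}
    (hA : ContinuousOn A (Icc a b)) (hC0 : 0 ≤ C) (hC : ∀ t ∈ Icc a b, ‖A t‖ ≤ C) {c c' : ℝ}
    (hac : a ≤ c) (hcc : c ≤ c') (hcb : c' ≤ b) (hδ : (2 * C + 1) * (c' - c) ≤ 1) (y₀ : V) :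
    ∃ y : ℝ → V, y c = y₀ ∧ ∀ t ∈ Icc c c', HasDerivWithinAt y (A t (y t)) (Icc c c') t := by
  have hsub : Icc c c' ⊆ Icc a b := Icc_subset_Icc hac hcb
  have hN : 0 ≤ ‖y₀‖ := norm_nonneg _
  have hPL : IsPicardLindelof (fun t x => A t x) (tmin := c) (tmax := c') ⟨c, le_rfl, hcc⟩ y₀
      ⟨‖y₀‖ + 1, by positivity⟩ 0 ⟨C * (2 * ‖y₀‖ + 1), by positivity⟩ ⟨C, hC0⟩ := by
    refine ⟨?_, ?_, ?_, ?_⟩
    · intro t ht
      refine (LipschitzWith.of_dist_le_mul ?_).lipschitzOnWith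
      intro x y
      rw [dist_eq_norm, dist_eq_norm, ← map_sub]
      exact (A t).le_of_opNorm_le (hC t (hsub ht)) _
    · intro x _
      exact (hA.mono hsub).clm_apply continuousOn_const
    · intro t ht x hx
      have h1 : ‖A t x‖ ≤ C * ‖x‖ := (A t).le_of_opNorm_le (hC t (hsub ht)) _
      have h2 : ‖x‖ ≤ 2 * ‖y₀‖ + 1 := by
        have h3 : dist x y₀ ≤ ‖y₀‖ + 1 := hx
        rw [dist_eq_norm] at h3
        have h4 : ‖x‖ ≤ ‖x - y₀‖ + ‖y₀‖ := by
          have := norm_add_le (x - y₀) y₀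
          simpa using this
        linarith
      exact h1.trans (mul_le_mul_of_nonneg_left h2 hC0)
    · show C * (2 * ‖y₀‖ + 1) * max (c' - c) (c - c) ≤ (‖y₀‖ + 1) - 0
      rw [sub_self, max_eq_left (by linarith), sub_zero]
      have h5 : 0 ≤ c' - c := by linarith
      have h6 : C * (c' - c) ≤ 1 / 2 := by nlinarith
      have h7 : 0 ≤ C * (c' - c) := by positivity
      nlinarith [mul_le_mul_of_nonneg_right h6 hN]
  obtain ⟨y, hy, hy'⟩ := hPL.exists_eq_forall_mem_Icc_hasDerivWithinAt₀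
  exact ⟨y, hy, hy'⟩

theorem lin_glue {A : ℝ → V →L[ℝ] V} {a c c' : ℝ} {x y : ℝ → V} (hac : a ≤ c) (hcc : c ≤ c')
    (hx : ∀ t ∈ Icc a c, HasDerivWithinAt x (A t (x t)) (Icc a c) t)
    (hy : ∀ t ∈ Icc c c', HasDerivWithinAt y (A t (y t)) (Icc c c') t) (hxy : y c = x c) :
    ∀ t ∈ Icc a c', HasDerivWithinAt (fun t => if t ≤ c then x t else y t)
      (A t ((fun t => if t ≤ c then x t else y t) t)) (Icc a c') t := by
  set z : ℝ → V := fun t => if t ≤ c then x t else y t with hz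
  have hzx : ∀ t ≤ c, z t = x t := fun t ht => if_pos ht
  have hzy : ∀ t, c ≤ t → z t = y t := by
    intro t ht
    rcases ht.eq_or_lt with h | h
    · rw [← h, hzx c le_rfl, hxy]
    · exact if_neg (not_le.2 h)
  have h1 : ∀ t ∈ Icc a c, HasDerivWithinAt z (A t (z t)) (Icc a c) t := by
    intro t ht
    rw [hzx t ht.2]
    exact (hx t ht).congr (fun s hs => hzx s hs.2) (hzx t ht.2)
  have h2 : ∀ t ∈ Icc c c', HasDerivWithinAt z (A t (z t)) (Icc c c') t := by
    intro t ht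
    rw [hzy t ht.1]
    exact (hy t ht).congr (fun s hs => hzy s hs.1) (hzy t ht.1)
  intro t ht
  rcases lt_trichotomy t c with h | h | h
  · refine (h1 t ⟨ht.1, h.le⟩).mono_of_mem_nhdsWithin ?_
    rw [mem_nhdsWithin_iff_exists_mem_nhds_inter]
    exact ⟨Iic c, Iic_mem_nhds h, fun s hs => ⟨hs.2.1, hs.1⟩⟩
  · subst h
    rw [← Icc_union_Icc_eq_Icc hac hcc]
    exact (h1 t ⟨ht.1, le_rfl⟩).union (h2 t ⟨le_rfl, ht.2⟩)
  · refine (h2 t ⟨h.le, ht.2⟩).mono_of_mem_nhdsWithin ?_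
    rw [mem_nhdsWithin_iff_exists_mem_nhds_inter]
    exact ⟨Ici c, Ici_mem_nhds h, fun s hs => ⟨hs.1, hs.2.2⟩⟩

/-- global existence for linear ordinary differential equations -/
theorem lin_global [CompleteSpace V] {A : ℝ → V →L[ℝ] V} {a b : ℝ} (hab : a ≤ b)
    (hA : ContinuousOn A (Icc a b)) (x₀ : V) :
    ∃ x : ℝ → V, x a = x₀ ∧ ∀ t ∈ Icc a b, HasDerivWithinAt x (A t (x t)) (Icc a b) t := by
  obtain ⟨C, hC⟩ := isCompact_Icc.exists_bound_of_continuousOn hA
  have hC0 : 0 ≤ C := (norm_nonneg _).trans (hC a ⟨le_rfl, hab⟩)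
  have hpos : 0 < 2 * C + 1 := by linarith
  have key : ∀ n : ℕ, ∃ x : ℝ → V, x a = x₀ ∧ ∀ t ∈ Icc a (min b (a + n * (1 / (2 * C + 1)))),
      HasDerivWithinAt x (A t (x t)) (Icc a (min b (a + n * (1 / (2 * C + 1))))) t := by
    intro n
    induction n with
    | zero =>
      refine ⟨fun _ => x₀, rfl, ?_⟩
      have h0 : min b (a + ((0 : ℕ) : ℝ) * (1 / (2 * C + 1))) = a := by
        simp [hab]
      rw [h0, Icc_self]
      intro t ht
      rw [mem_singleton_iff] at ht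
      subst ht
      exact HasFDerivWithinAt.of_subsingleton subsingleton_singleton
    | succ n ih =>
      obtain ⟨x, hxa, hx⟩ := ih
      set c := min b (a + n * (1 / (2 * C + 1))) with hc
      set c' := min b (a + ((n + 1 : ℕ) : ℝ) * (1 / (2 * C + 1))) with hc'
      have hstep : (0 : ℝ) < 1 / (2 * C + 1) := by positivity
      have hac : a ≤ c := le_min hab (by
        have : (0 : ℝ) ≤ n * (1 / (2 * C + 1)) := by positivity
        linarith)
      have hcc : c ≤ c' := by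
        refine min_le_min le_rfl ?_
        push_cast
        nlinarith
      have hcb : c' ≤ b := min_le_left _ _
      have hδ : (2 * C + 1) * (c' - c) ≤ 1 := by
        have h1 : c' - c ≤ 1 / (2 * C + 1) := by
          have h2 : c' ≤ a + ((n + 1 : ℕ) : ℝ) * (1 / (2 * C + 1)) := min_le_right _ _
          rcases le_total b (a + n * (1 / (2 * C + 1))) with h | h
          · have : c = b := min_eq_left h
            rw [this]
            linarith
          · have : c = a + n * (1 / (2 * C + 1)) := min_eq_right h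
            rw [this]
            push_cast at h2
            linarith
        calc (2 * C + 1) * (c' - c) ≤ (2 * C + 1) * (1 / (2 * C + 1)) :=
              mul_le_mul_of_nonneg_left h1 hpos.le
          _ = 1 := by field_simp
      obtain ⟨y, hyc, hy⟩ := lin_local hA hC0 hC hac hcc hcb hδ (x c)
      refine ⟨fun t => if t ≤ c then x t else y t, ?_, lin_glue hac hcc hx hy hyc⟩
      simp only [hac, if_true]
      exact hxa
  obtain ⟨n, hn⟩ := exists_nat_gt ((b - a) * (2 * C + 1))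
  obtain ⟨x, hxa, hx⟩ := key n
  have hb : min b (a + n * (1 / (2 * C + 1))) = b := by
    refine min_eq_left ?_
    have h1 : b - a < n * (1 / (2 * C + 1)) := by
      rw [mul_one_div, lt_div_iff₀ hpos]
      exact hn
    linarith
  rw [hb] at hx
  exact ⟨x, hxa, hx⟩

/-- a two-sided derivative on a compact interval gives a right derivative -/
theorem right_deriv {f : ℝ → V} {f' : V} {t s : ℝ} (hs : s ∈ Ico 0 t)
    (hf : HasDerivWithinAt f f' (Icc 0 t) s) : HasDerivWithinAt f f' (Ici s) s := by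
  refine hf.mono_of_mem_nhdsWithin ?_
  rw [mem_nhdsWithin_iff_exists_mem_nhds_inter]
  exact ⟨Iic t, Iic_mem_nhds hs.2, fun x hx => ⟨hs.1.trans hx.2, hx.1⟩⟩

/-- Gronwall with zero initial value -/
theorem gron0 {f f' : ℝ → V} {t K ε : ℝ} (hK : 0 ≤ K) (hε : 0 ≤ ε)
    (hf : ∀ s ∈ Icc 0 t, HasDerivWithinAt f (f' s) (Icc 0 t) s) (h0 : f 0 = 0)
    (hb : ∀ s ∈ Icc 0 t, ‖f' s‖ ≤ K * ‖f s‖ + ε) :
    ∀ s ∈ Icc 0 t, ‖f s‖ ≤ ε * Real.exp ((K + 1) * t) := by
  intro s hs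
  have hc : ContinuousOn f (Icc 0 t) := fun x hx => (hf x hx).continuousWithinAt
  have h1 := norm_le_gronwallBound_of_norm_deriv_right_le (f := f) (f' := f') (δ := 0)
    (K := K + 1) (ε := ε) (a := 0) (b := t) hc
    (fun x hx => right_deriv hx (hf x ⟨hx.1, hx.2.le⟩)) (by rw [h0, norm_zero])
    (fun x hx => by
      have h2 := hb x ⟨hx.1, hx.2.le⟩
      have h3 := norm_nonneg (f x)
      nlinarith) s hs
  rw [gronwallBound_of_K_ne_0 (by linarith : K + 1 ≠ 0), sub_zero] at h1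
  simp only [zero_mul, zero_add] at h1
  have h4 : Real.exp ((K + 1) * s) ≤ Real.exp ((K + 1) * t) := by
    apply Real.exp_le_exp.2
    nlinarith [hs.2]
  have h5 : 0 ≤ Real.exp ((K + 1) * s) - 1 := by
    have : 1 ≤ Real.exp ((K + 1) * s) := Real.one_le_exp (mul_nonneg (by linarith) hs.1)
    linarith
  have h6 : ε / (K + 1) ≤ ε := div_le_self hε (by linarith)
  calc ‖f s‖ ≤ ε / (K + 1) * (Real.exp ((K + 1) * s) - 1) := h1
    _ ≤ ε * (Real.exp ((K + 1) * s) - 1) := mul_le_mul_of_nonneg_right h6 h5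
    _ ≤ ε * Real.exp ((K + 1) * t) := by
      apply mul_le_mul_of_nonneg_left _ hε
      linarith

end Linear

section Flow

variable {E : Type} [NormedAddCommGroup E] [NormedSpace ℝ E] [FiniteDimensional ℝ E]

/-- uniformity along a compact curve -/
theorem unif_curve {U : Type} [NormedAddCommGroup U] {F : E → U} (hF : Continuous F) {γ : ℝ → E}
    (hγ : ContinuousOn γ (Icc 0 1)) {ε : ℝ} (hε : 0 < ε) :
    ∃ r > 0, ∀ s ∈ Icc (0 : ℝ) 1, ∀ y, ‖y - γ s‖ ≤ r → ‖F y - F (γ s)‖ ≤ ε := by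
  have : ProperSpace E := FiniteDimensional.proper ℝ E
  have hK : IsCompact (γ '' Icc 0 1) := isCompact_Icc.image_of_continuousOn hγ
  have hK1 : IsCompact (cthickening 1 (γ '' Icc 0 1)) := hK.cthickening
  have hu := hK1.uniformContinuousOn_of_continuous hF.continuousOn
  rw [Metric.uniformContinuousOn_iff] at hu
  obtain ⟨δ, hδ, hδ'⟩ := hu ε hε
  refine ⟨min 1 (δ / 2), by positivity, ?_⟩
  intro s hs y hy
  have hγm : γ s ∈ γ '' Icc 0 1 := mem_image_of_mem _ hs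
  have hym : y ∈ cthickening 1 (γ '' Icc 0 1) := by
    refine mem_cthickening_of_dist_le y (γ s) _ _ hγm ?_
    rw [dist_eq_norm]
    exact hy.trans (min_le_left _ _)
  have hγm' : γ s ∈ cthickening 1 (γ '' Icc 0 1) := self_subset_cthickening _ hγm
  have h1 := hδ' y hym (γ s) hγm' (by
    rw [dist_eq_norm]
    have := hy.trans (min_le_right _ _)
    linarith)
  rw [dist_eq_norm] at h1
  exact h1.le

/-- the linearisation error is small near a compact curve -/
theorem lin_err {W : E → E} (hW : ContDiff ℝ 1 W) {γ : ℝ → E}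
    (hγ : ContinuousOn γ (Icc 0 1)) {ε : ℝ} (hε : 0 < ε) :
    ∃ r > 0, ∀ s ∈ Icc (0 : ℝ) 1, ∀ y, ‖y - γ s‖ ≤ r →
      ‖W y - W (γ s) - fderiv ℝ W (γ s) (y - γ s)‖ ≤ ε * ‖y - γ s‖ := by
  obtain ⟨r, hr, h⟩ := unif_curve (F := fun x => fderiv ℝ W x)
    (hW.continuous_fderiv one_ne_zero) hγ hε
  refine ⟨r, hr, fun s hs y hy => ?_⟩
  have hmem : ∀ z ∈ closedBall (γ s) r, ‖z - γ s‖ ≤ r := by
    intro z hz
    rwa [mem_closedBall, dist_eq_norm] at hz
  refine Convex.norm_image_sub_le_of_norm_hasFDerivWithin_le' (𝕜 := ℝ)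
    (f := W) (f' := fun z => fderiv ℝ W z) (s := closedBall (γ s) r) ?_ ?_
    (convex_closedBall _ _) (mem_closedBall_self hr.le) ?_
  · intro z hz
    exact ((hW.differentiable one_ne_zero) z).hasFDerivAt.hasFDerivWithinAt
  · intro z hz
    exact h s hs z (hmem z hz)
  · rwa [mem_closedBall, dist_eq_norm]

/-- Lipschitz bound near a compact curve -/
theorem tube {W : E → E} (hW : ContDiff ℝ 1 W) {γ : ℝ → E} (hγ : ContinuousOn γ (Icc 0 1)) :
    ∃ K ≥ 0, (∀ s ∈ Icc (0 : ℝ) 1, ‖fderiv ℝ W (γ s)‖ ≤ K) ∧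
      ∀ s ∈ Icc (0 : ℝ) 1, ∀ y, ‖y - γ s‖ ≤ 1 → ‖W y - W (γ s)‖ ≤ K * ‖y - γ s‖ := by
  have : ProperSpace E := FiniteDimensional.proper ℝ E
  have hK : IsCompact (γ '' Icc 0 1) := isCompact_Icc.image_of_continuousOn hγ
  have hK1 : IsCompact (cthickening 1 (γ '' Icc 0 1)) := hK.cthickening
  obtain ⟨C, hC⟩ := hK1.exists_bound_of_continuousOn
    (hW.continuous_fderiv one_ne_zero).continuousOn
  have hsub : ∀ s ∈ Icc (0 : ℝ) 1, closedBall (γ s) 1 ⊆ cthickening 1 (γ '' Icc 0 1) := by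
    intro s hs y hy
    exact mem_cthickening_of_dist_le y (γ s) _ _ (mem_image_of_mem _ hs) hy
  refine ⟨max C 0, le_max_right _ _, ?_, ?_⟩
  · intro s hs
    exact (hC _ (hsub s hs (mem_closedBall_self zero_le_one))).trans (le_max_left _ _)
  · intro s hs y hy
    refine Convex.norm_image_sub_le_of_norm_fderiv_le (𝕜 := ℝ) (f := W)
      (s := closedBall (γ s) 1) ?_ ?_ (convex_closedBall _ _) (mem_closedBall_self zero_le_one) ?_
    · intro z _
      exact (hW.differentiable one_ne_zero) z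
    · intro z hz
      exact (hC z (hsub s hs hz)).trans (le_max_left _ _)
    · rwa [mem_closedBall, dist_eq_norm]

/-- nearby solutions stay close -/
theorem dist_bd {W : E → E} {γ δ : ℝ → E} {K : ℝ} (hK : 0 ≤ K)
    (hγ : ∀ t ∈ Icc (0 : ℝ) 1, HasDerivWithinAt γ (W (γ t)) (Icc 0 1) t)
    (hδ : ∀ t ∈ Icc (0 : ℝ) 1, HasDerivWithinAt δ (W (δ t)) (Icc 0 1) t)
    (hW : ∀ s ∈ Icc (0 : ℝ) 1, ∀ y, ‖y - γ s‖ ≤ 1 → ‖W y - W (γ s)‖ ≤ K * ‖y - γ s‖)
    (h0 : δ 0 ≠ γ 0) (h1 : ‖δ 0 - γ 0‖ * Real.exp (K + 1) ≤ 1) :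
    ∀ s ∈ Icc (0 : ℝ) 1, ‖δ s - γ s‖ ≤ ‖δ 0 - γ 0‖ * Real.exp (K + 1) := by
  have hpos : 0 < ‖δ 0 - γ 0‖ := norm_pos_iff.2 (sub_ne_zero.2 h0)
  have hB : ∀ s : ℝ, HasDerivAt (fun s => ‖δ 0 - γ 0‖ * Real.exp ((K + 1) * s))
      (‖δ 0 - γ 0‖ * (Real.exp ((K + 1) * s) * (K + 1))) s := by
    intro s
    have h2 : HasDerivAt (fun s : ℝ => (K + 1) * s) (K + 1) s := by
      simpa using (hasDerivAt_id s).const_mul (K + 1)
    exact (h2.exp).const_mul _
  have hle : ∀ s ∈ Icc (0 : ℝ) 1, ‖δ 0 - γ 0‖ * Real.exp ((K + 1) * s) ≤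
      ‖δ 0 - γ 0‖ * Real.exp (K + 1) := by
    intro s hs
    refine mul_le_mul_of_nonneg_left ?_ hpos.le
    apply Real.exp_le_exp.2
    nlinarith [hs.2]
  intro s hs
  refine le_trans ?_ (hle s hs)
  refine image_norm_le_of_norm_deriv_right_lt_deriv_boundary' (f := fun s => δ s - γ s)
    (f' := fun s => W (δ s) - W (γ s)) (a := 0) (b := 1)
    (B := fun s => ‖δ 0 - γ 0‖ * Real.exp ((K + 1) * s))
    (B' := fun s => ‖δ 0 - γ 0‖ * (Real.exp ((K + 1) * s) * (K + 1)))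
    ?_ ?_ ?_ ?_ ?_ ?_ hs
  · exact fun x hx => ((hδ x hx).continuousWithinAt).sub ((hγ x hx).continuousWithinAt)
  · intro x hx
    exact right_deriv hx ((hδ x ⟨hx.1, hx.2.le⟩).sub (hγ x ⟨hx.1, hx.2.le⟩))
  · simp
  · exact fun x _ => (hB x).continuousAt.continuousWithinAt
  · intro x _
    exact (hB x).hasDerivWithinAt
  · intro x hx hx'
    have hx1 : x ∈ Icc (0 : ℝ) 1 := ⟨hx.1, hx.2.le⟩
    have h2 : ‖δ x - γ x‖ ≤ 1 := by
      rw [hx']
      exact (hle x hx1).trans h1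
    have h3 := hW x hx1 (δ x) h2
    rw [hx'] at h3
    refine lt_of_le_of_lt h3 ?_
    have h4 : 0 < Real.exp ((K + 1) * x) := Real.exp_pos _
    nlinarith [mul_pos hpos h4]

/-- uniqueness -/
theorem sol_unique {W : E → E} (hW : ContDiff ℝ 1 W) {γ δ : ℝ → E}
    (hγ : ∀ t ∈ Icc (0 : ℝ) 1, HasDerivWithinAt γ (W (γ t)) (Icc 0 1) t)
    (hδ : ∀ t ∈ Icc (0 : ℝ) 1, HasDerivWithinAt δ (W (δ t)) (Icc 0 1) t)
    (h0 : δ 0 = γ 0) : ∀ s ∈ Icc (0 : ℝ) 1, δ s = γ s := by
  have : ProperSpace E := FiniteDimensional.proper ℝ E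
  have hγc : ContinuousOn γ (Icc 0 1) := fun s hs => (hγ s hs).continuousWithinAt
  have hδc : ContinuousOn δ (Icc 0 1) := fun s hs => (hδ s hs).continuousWithinAt
  have hK : IsCompact (γ '' Icc 0 1 ∪ δ '' Icc 0 1) :=
    (isCompact_Icc.image_of_continuousOn hγc).union (isCompact_Icc.image_of_continuousOn hδc)
  obtain ⟨R, hR⟩ := hK.isBounded.subset_closedBall (0 : E)
  obtain ⟨C, hC⟩ := (isCompact_closedBall (0 : E) R).exists_bound_of_continuousOn
    (hW.continuous_fderiv one_ne_zero).continuousOn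
  have hlip : LipschitzOnWith ⟨max C 0, le_max_right _ _⟩ W (closedBall (0 : E) R) := by
    refine Convex.lipschitzOnWith_of_nnnorm_fderiv_le (𝕜 := ℝ) ?_ ?_ (convex_closedBall _ _)
    · exact fun x _ => (hW.differentiable one_ne_zero) x
    · intro x hx
      show ‖fderiv ℝ W x‖ ≤ max C 0
      exact (hC x hx).trans (le_max_left _ _)
  have huniq := ODE_solution_unique_of_mem_Icc_right (v := fun _ => W)
    (s := fun _ => closedBall (0 : E) R) (K := ⟨max C 0, le_max_right _ _⟩) (a := 0) (b := 1)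
    (f := δ) (g := γ) (fun _ _ => hlip) hδc
    (fun t ht => right_deriv ht (hδ t ⟨ht.1, ht.2.le⟩))
    (fun t ht => hR (Or.inr (mem_image_of_mem _ ⟨ht.1, ht.2.le⟩))) hγc
    (fun t ht => right_deriv ht (hγ t ⟨ht.1, ht.2.le⟩))
    (fun t ht => hR (Or.inl (mem_image_of_mem _ ⟨ht.1, ht.2.le⟩))) h0
  exact fun s hs => huniq hs

/-- the linearised equation has a solution -/
theorem ex_jac {A : ℝ → E →L[ℝ] E} (hA : ContinuousOn A (Icc 0 1)) :
    ∃ J : ℝ → E →L[ℝ] E, J 0 = ContinuousLinearMap.id ℝ E ∧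
      ∀ s ∈ Icc (0 : ℝ) 1, HasDerivWithinAt J ((A s).comp (J s)) (Icc 0 1) s := by
  have : CompleteSpace E := FiniteDimensional.complete ℝ E
  obtain ⟨J, h0, h1⟩ := lin_global (V := E →L[ℝ] E)
    (A := fun s => ContinuousLinearMap.compL ℝ E E E (A s)) zero_le_one
    ((ContinuousLinearMap.compL ℝ E E E).continuous.comp_continuousOn hA)
    (ContinuousLinearMap.id ℝ E)
  exact ⟨J, h0, h1⟩

/-- **Differentiability of the flow.** -/
theorem flow_fderiv {W : E → E} (hW : ContDiff ℝ 1 W) {Φ : ℝ → E → E} (hΦ : IsFlow01 W Φ)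
    (x : E) {J : ℝ → E →L[ℝ] E} (hJ0 : J 0 = ContinuousLinearMap.id ℝ E)
    (hJ : ∀ s ∈ Icc (0 : ℝ) 1,
      HasDerivWithinAt J ((fderiv ℝ W (Φ s x)).comp (J s)) (Icc 0 1) s) :
    ∀ s ∈ Icc (0 : ℝ) 1, HasFDerivAt (Φ s) (J s) x := by
  have hγ : ContinuousOn (fun s => Φ s x) (Icc 0 1) :=
    fun s hs => (hΦ.2 x s hs).continuousWithinAt
  obtain ⟨K, hK, hK1, hK2⟩ := tube hW hγ
  intro s hs
  rw [hasFDerivAt_iff_isLittleO_nhds_zero, Asymptotics.isLittleO_iff]
  intro c hc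
  set C₁ : ℝ := Real.exp (K + 1) with hC₁
  have hC₁p : 0 < C₁ := Real.exp_pos _
  obtain ⟨r, hr, hlin⟩ := lin_err hW hγ (ε := c / (C₁ * C₁)) (by positivity)
  have hev : ∀ᶠ h : E in nhds 0, ‖h‖ ≤ min 1 r / C₁ := by
    have : closedBall (0 : E) (min 1 r / C₁) ∈ nhds (0 : E) :=
      closedBall_mem_nhds _ (by positivity)
    filter_upwards [this] with h hh
    simpa using hh
  filter_upwards [hev] with h hh
  rcases eq_or_ne h 0 with h00 | h00
  · simp [h00]
  have hh1 : ‖h‖ * C₁ ≤ min 1 r := by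
    calc ‖h‖ * C₁ ≤ min 1 r / C₁ * C₁ := mul_le_mul_of_nonneg_right hh hC₁p.le
      _ = min 1 r := by field_simp
  have hsm : ∀ s ∈ Icc (0 : ℝ) 1, ‖Φ s (x + h) - Φ s x‖ ≤ ‖h‖ * C₁ := by
    intro s hs
    have h1 := dist_bd (W := W) (γ := fun s => Φ s x) (δ := fun s => Φ s (x + h)) hK
      (hΦ.2 x) (hΦ.2 (x + h)) hK2 (by simp [hΦ.1, h00])
      (by
        simp only [hΦ.1, add_sub_cancel_left]
        exact hh1.trans (min_le_left _ _)) s hs
    simpa only [hΦ.1, add_sub_cancel_left] using h1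
  have hg := gron0 (V := E) (f := fun s => Φ s (x + h) - Φ s x - J s h)
    (f' := fun s => W (Φ s (x + h)) - W (Φ s x) -
      ((fderiv ℝ W (Φ s x)).comp (J s)) h) (t := 1) (K := K)
    (ε := c / (C₁ * C₁) * (‖h‖ * C₁)) hK (by positivity)
    (fun s hs => by
      refine ((hΦ.2 (x + h) s hs).sub (hΦ.2 x s hs)).sub ?_
      exact (hJ s hs).clm_apply (hasDerivWithinAt_const s (Icc 0 1) h) |>.congr_deriv (by simp))
    (by simp [hΦ.1, hJ0])
    (fun s hs => by
      have h1 := hlin s hs (Φ s (x + h)) ((hsm s hs).trans (hh1.trans (min_le_right _ _)))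
      have h2 := hsm s hs
      set L := fderiv ℝ W (Φ s x) with hL
      have h3 : W (Φ s (x + h)) - W (Φ s x) - (L.comp (J s)) h =
          (W (Φ s (x + h)) - W (Φ s x) - L (Φ s (x + h) - Φ s x)) +
          L (Φ s (x + h) - Φ s x - J s h) := by
        rw [ContinuousLinearMap.comp_apply, map_sub L (Φ s (x + h) - Φ s x) (J s h)]
        abel
      rw [h3]
      have h4 : ‖L (Φ s (x + h) - Φ s x - J s h)‖ ≤ K * ‖Φ s (x + h) - Φ s x - J s h‖ :=
        L.le_of_opNorm_le (hK1 s hs) _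
      have h5 : c / (C₁ * C₁) * ‖Φ s (x + h) - Φ s x‖ ≤ c / (C₁ * C₁) * (‖h‖ * C₁) :=
        mul_le_mul_of_nonneg_left h2 (by positivity)
      have h6 := norm_add_le (W (Φ s (x + h)) - W (Φ s x) - L (Φ s (x + h) - Φ s x))
        (L (Φ s (x + h) - Φ s x - J s h))
      linarith)
    s hs
  refine hg.trans (le_of_eq ?_)
  rw [mul_one, ← hC₁]
  field_simp

end Flow

end Pool.Agent.Helper87.SY
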