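import Pool.Agent.Helper87.SY.Flow1

/-!
# Smooth dependence of flows on the initial point, II

* `flow_contDiff`: the solution map of a `C^∞` field is `C^∞` in the initial point;
* `exists_flow`: a bounded `C^∞` field has a global flow which is jointly `C^∞`.
-/

set_option autoImplicit false
set_option linter.unusedSectionVars false

open Set Metric
open scoped ContDiff

namespace Pool.Agent.Helper87.SY

/-- The derivative of the flow of a `C^∞` field, and the linearised equation. -/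
theorem exists_J {E : Type} [NormedAddCommGroup E] [NormedSpace ℝ E] [FiniteDimensional ℝ E]
    {W : E → E} (hW : ContDiff ℝ 1 W) {Φ : ℝ → E → E} (hΦ : IsFlow01 W Φ) :
    ∃ J : ℝ → E → E →L[ℝ] E, (∀ x, J 0 x = ContinuousLinearMap.id ℝ E) ∧
      (∀ x, ∀ s ∈ Icc (0 : ℝ) 1,
        HasDerivWithinAt (fun s => J s x) ((fderiv ℝ W (Φ s x)).comp (J s x)) (Icc 0 1) s) ∧
      ∀ x, ∀ s ∈ Icc (0 : ℝ) 1, HasFDerivAt (Φ s) (J s x) x := by
  have hc : ∀ x, ContinuousOn (fun s => fderiv ℝ W (Φ s x)) (Icc 0 1) := by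
    intro x
    exact (hW.continuous_fderiv one_ne_zero).comp_continuousOn
      (fun s hs => (hΦ.2 x s hs).continuousWithinAt)
  choose J h0 h1 using fun x => ex_jac (hc x)
  exact ⟨fun s x => J x s, h0, h1, fun x => flow_fderiv hW hΦ x (h0 x) (h1 x)⟩

/-- **The solution map of a `C^∞` field is `C^k` in the initial point.** -/
theorem flow_contDiff_nat (k : ℕ) : ∀ {E : Type} [NormedAddCommGroup E] [NormedSpace ℝ E]
    [FiniteDimensional ℝ E] {W : E → E}, ContDiff ℝ ∞ W → ∀ {Φ : ℝ → E → E}, IsFlow01 W Φ →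
    ∀ t ∈ Icc (0 : ℝ) 1, ContDiff ℝ k (Φ t) := by
  induction k with
  | zero =>
    intro E _ _ _ W hW Φ hΦ t ht
    obtain ⟨J, -, -, hJ⟩ := exists_J (hW.of_le (by exact_mod_cast le_top)) hΦ
    rw [Nat.cast_zero, contDiff_zero]
    exact continuous_iff_continuousAt.2 fun x => (hJ x t ht).continuousAt
  | succ k ih =>
    intro E _ _ _ W hW Φ hΦ t ht
    have hW1 : ContDiff ℝ 1 W := hW.of_le (by exact_mod_cast le_top)
    obtain ⟨J, hJ0, hJ1, hJ⟩ := exists_J hW1 hΦ
    -- the extended field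
    let W' : E × (E →L[ℝ] E) → E × (E →L[ℝ] E) := fun z => (W z.1, (fderiv ℝ W z.1).comp z.2)
    have hW' : ContDiff ℝ ∞ W' := by
      refine (hW.comp contDiff_fst).prodMk ?_
      have h1 : ContDiff ℝ ∞ (fun x => fderiv ℝ W x) := hW.fderiv_right (by simp)
      exact (h1.comp contDiff_fst).clm_comp contDiff_snd
    let Φ' : ℝ → E × (E →L[ℝ] E) → E × (E →L[ℝ] E) := fun s z => (Φ s z.1, (J s z.1).comp z.2)
    have hΦ' : IsFlow01 W' Φ' := by
      refine ⟨fun z => ?_, fun z s hs => ?_⟩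
      · simp only [Φ', hΦ.1, hJ0]
        rfl
      · have h1 := hΦ.2 z.1 s hs
        have h2 := (hJ1 z.1 s hs).clm_comp (hasDerivWithinAt_const s (Icc (0 : ℝ) 1) z.2)
        refine (h1.prodMk h2).congr_deriv ?_
        simp only [W', Φ']
        congr 1
        simp [ContinuousLinearMap.comp_assoc]
    have h3 := ih hW' hΦ' t ht
    have h4 : ContDiff ℝ k (fun x => J t x) := by
      have h5 : (fun x => J t x) =
          fun x => (Φ' t (x, ContinuousLinearMap.id ℝ E)).2 := by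
        funext x
        simp [Φ']
      rw [h5]
      exact (h3.comp (contDiff_id.prodMk contDiff_const)).snd
    have h6 : fderiv ℝ (Φ t) = fun x => J t x := funext fun x => (hJ x t ht).fderiv
    push_cast
    rw [contDiff_succ_iff_fderiv]
    refine ⟨fun x => (hJ x t ht).differentiableAt, by simp, ?_⟩
    rw [h6]
    exact h4

/-- **The solution map of a `C^∞` field is `C^∞` in the initial point.** -/
theorem flow_contDiff {E : Type} [NormedAddCommGroup E] [NormedSpace ℝ E]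
    [FiniteDimensional ℝ E] {W : E → E} (hW : ContDiff ℝ ∞ W) {Φ : ℝ → E → E}
    (hΦ : IsFlow01 W Φ) {t : ℝ} (ht : t ∈ Icc (0 : ℝ) 1) : ContDiff ℝ ∞ (Φ t) :=
  contDiff_infty.2 fun k => flow_contDiff_nat k hW hΦ t ht

/-- `Φ` is the global flow of `W`. -/
def IsFlow {E : Type} [NormedAddCommGroup E] [NormedSpace ℝ E] (W : E → E) (Φ : ℝ → E → E) :
    Prop :=
  (∀ x, Φ 0 x = x) ∧ ∀ x t, HasDerivAt (fun s => Φ s x) (W (Φ t x)) t

/-- a global flow is jointly smooth -/
theorem IsFlow.contDiff {E : Type} [NormedAddCommGroup E] [NormedSpace ℝ E]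
    [FiniteDimensional ℝ E] {W : E → E} (hW : ContDiff ℝ ∞ W) {Φ : ℝ → E → E}
    (hΦ : IsFlow W Φ) : ContDiff ℝ ∞ (fun z : ℝ × E => Φ z.1 z.2) := by
  let W' : ℝ × E → ℝ × E := fun z => (0, z.1 • W z.2)
  have hW' : ContDiff ℝ ∞ W' :=
    contDiff_const.prodMk (contDiff_fst.smul (hW.comp contDiff_snd))
  let Φ' : ℝ → ℝ × E → ℝ × E := fun s z => (z.1, Φ (s * z.1) z.2)
  have hΦ' : IsFlow01 W' Φ' := by
    refine ⟨fun z => ?_, fun z s _ => ?_⟩
    · simp [Φ', hΦ.1]
    · have h1 : HasDerivAt (fun s : ℝ => s * z.1) z.1 s := by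
        simpa using (hasDerivAt_id s).mul_const z.1
      have h2 := (hΦ.2 z.2 (s * z.1)).scomp s h1
      exact ((hasDerivAt_const s z.1).prodMk h2).hasDerivWithinAt
  have h3 := flow_contDiff hW' hΦ' (t := 1) ⟨zero_le_one, le_rfl⟩
  have h4 := h3.snd
  have h5 : (fun z : ℝ × E => Φ z.1 z.2) = fun z => (Φ' 1 z).2 := by
    funext z
    simp [Φ']
  rw [h5]
  exact h4

theorem IsFlow.contDiff_right {E : Type} [NormedAddCommGroup E] [NormedSpace ℝ E]
    [FiniteDimensional ℝ E] {W : E → E} (hW : ContDiff ℝ ∞ W) {Φ : ℝ → E → E}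
    (hΦ : IsFlow W Φ) (t : ℝ) : ContDiff ℝ ∞ (Φ t) :=
  (hΦ.contDiff hW).comp (contDiff_const.prodMk contDiff_id)

open scoped Manifold in
/-- global solutions of bounded `C¹` fields -/
theorem exists_sol {E : Type} [NormedAddCommGroup E] [NormedSpace ℝ E]
    [FiniteDimensional ℝ E] {W : E → E} (hW : ContDiff ℝ 1 W) {C : ℝ} (hC : ∀ x, ‖W x‖ ≤ C)
    (x : E) : ∃ γ : ℝ → E, γ 0 = x ∧ ∀ t, HasDerivAt γ (W (γ t)) t := by
  have : CompleteSpace E := FiniteDimensional.complete ℝ E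
  have : ProperSpace E := FiniteDimensional.proper ℝ E
  have hC0 : 0 ≤ C := (norm_nonneg _).trans (hC x)
  have hloc : ∀ x : E, ∃ γ : ℝ → E, γ 0 = x ∧
      ∀ t ∈ Icc (-(1 / (C + 1))) (1 / (C + 1)),
        HasDerivWithinAt γ (W (γ t)) (Icc (-(1 / (C + 1))) (1 / (C + 1))) t := by
    intro x
    have hpos : 0 < 1 / (C + 1) := by positivity
    obtain ⟨D, hD⟩ := (isCompact_closedBall x 1).exists_bound_of_continuousOn
      (hW.continuous_fderiv one_ne_zero).continuousOn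
    have hlip : LipschitzOnWith ⟨max D 0, le_max_right _ _⟩ W (closedBall x ((1 : NNReal) : ℝ)) := by
      refine Convex.lipschitzOnWith_of_nnnorm_fderiv_le (𝕜 := ℝ) ?_ ?_ (convex_closedBall _ _)
      · exact fun x _ => (hW.differentiable one_ne_zero) x
      · intro y hy
        show ‖fderiv ℝ W y‖ ≤ max D 0
        exact (hD y hy).trans (le_max_left _ _)
    have hPL : IsPicardLindelof (fun _ => W) (tmin := -(1 / (C + 1))) (tmax := 1 / (C + 1))
        ⟨0, by constructor <;> linarith⟩ x 1 0 ⟨C, hC0⟩ ⟨max D 0, le_max_right _ _⟩ := by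
      refine IsPicardLindelof.of_time_independent (fun y _ => hC y) hlip ?_
      show C * max (1 / (C + 1) - 0) (0 - -(1 / (C + 1))) ≤ 1 - 0
      rw [sub_zero, zero_sub, neg_neg, max_self, sub_zero, mul_one_div,
        div_le_one (by positivity)]
      linarith
    obtain ⟨y, hy, hy'⟩ := hPL.exists_eq_forall_mem_Icc_hasDerivWithinAt₀
    exact ⟨y, hy, hy'⟩
  have hv : ContMDiff 𝓘(ℝ, E) 𝓘(ℝ, E).tangent 1
      (fun x => (⟨x, W x⟩ : TangentBundle 𝓘(ℝ, E) E)) := by
    have := (contMDiff_vectorSpace_iff_contDiff (V := W) (n := 1)).2 hW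
    exact this
  obtain ⟨γ, h0, h1⟩ := exists_isMIntegralCurve_of_isMIntegralCurveOn (I := 𝓘(ℝ, E)) (v := W) hv
    (ε := 1 / (C + 1)) (by positivity) (fun x => by
      obtain ⟨γ, h0, h1⟩ := hloc x
      refine ⟨γ, h0, fun t ht => ?_⟩
      have h2 := h1 t ⟨ht.1.le, ht.2.le⟩
      have h3 : HasFDerivWithinAt γ ((1 : ℝ →L[ℝ] ℝ).smulRight (W (γ t)))
          (Ioo (-(1 / (C + 1))) (1 / (C + 1))) t := (h2.mono Ioo_subset_Icc_self).hasFDerivWithinAt
      exact h3.hasMFDerivWithinAt) x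
  refine ⟨γ, h0, fun t => ?_⟩
  have h2 : HasFDerivAt γ ((1 : ℝ →L[ℝ] ℝ).smulRight (W (γ t)) : ℝ →L[ℝ] E) t :=
    HasMFDerivAt.hasFDerivAt (h1 t)
  exact h2.hasDerivAt.congr_deriv (by simp)

/-- **A bounded `C^∞` field has a global, jointly `C^∞` flow.** -/
theorem exists_flow {E : Type} [NormedAddCommGroup E] [NormedSpace ℝ E]
    [FiniteDimensional ℝ E] {W : E → E} (hW : ContDiff ℝ ∞ W) {C : ℝ} (hC : ∀ x, ‖W x‖ ≤ C) :
    ∃ Φ : ℝ → E → E, IsFlow W Φ ∧ ContDiff ℝ ∞ (fun z : ℝ × E => Φ z.1 z.2) := by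
  choose γ h0 h1 using exists_sol (hW.of_le (by exact_mod_cast le_top) : ContDiff ℝ 1 W) hC
  have h : IsFlow W (fun t x => γ x t) := ⟨h0, h1⟩
  exact ⟨_, h, h.contDiff hW⟩

end Pool.Agent.Helper87.SY
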